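import Pool.Agent.H28.GS.Targets

/-!
The structure theorem for the correlations of every order, with the case without bias on
progressions (project GS on `MP_c59857_nt`).
-/

set_option autoImplicit false

open Finset Filter Topology

namespace Pool.Agent.H28.GS

open Pool.Agent.H24.T2 (Pset box cub)
open Pool.Agent.H31.DP
open Pool.Agent.H31.GUF
open Pool.Agent.H28.GUG (BadG G_FN)

open Classical in
/-- [FIN] The structure theorem; the structured part is `0` for pairs, and if there is no bias on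
the progressions of small modulus. -/
def T_FIN : Prop :=
  ∀ (r : ℕ) (β : Fin r → ℤ) (δ : Fin r → ℕ) (R J : ℕ) (a₀ : ℤ) (b₀ : Fin R → ℤ) (a : Fin J → ℤ)
    (b : Fin J → Fin R → ℤ) (η ρ : ℝ), (∀ i, 1 ≤ δ i) → a₀ ≠ 0 →
    (∀ j, ∃ i, a₀ * b j i ≠ a j * b₀ i) → 0 < η → 0 < ρ →
    ∃ K : ℕ, 0 < K ∧ ∀ x y : ℕ, 0 < x → K * x ≤ y →
      ∑ N ∈ (Finset.Icc x y).filter (fun N : ℕ =>
        ¬ Str (Pair β δ ∨ NoObs β δ K N) β δ a₀ b₀ a b η K N),
        (1 / (N : ℝ)) ≤ ρ * Real.log ((y : ℝ) / x)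

theorem noObs_mono {r : ℕ} {β : Fin r → ℤ} {δ : Fin r → ℕ} {K K' N : ℕ} (h0 : 0 < K)
    (hK : K ≤ K') (h : NoObs β δ K' N) : NoObs β δ K N := by
  intro q n₀ M h1 h2 h3
  refine le_trans (h q n₀ M h1 (le_trans h2 hK) (le_trans h3 (Nat.mul_le_mul_right _ hK))) ?_
  have h4 : (0 : ℝ) < K := by exact_mod_cast h0
  have h5 : (K : ℝ) ≤ K' := by exact_mod_cast hK
  exact div_le_div_of_nonneg_left (Nat.cast_nonneg _) h4 h5

theorem pf_FIN (hT : T_FNS) (hG : G_FN) : T_FIN := by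
  classical
  intro r β δ R J a₀ b₀ a b η ρ hδ ha hb hη hρ
  obtain ⟨K₁, hK₁, h₁⟩ := hT r β δ R J a₀ b₀ a b η (ρ / 2) hδ ha hb hη (by linarith)
  obtain ⟨K₂, h₂⟩ := hG r β δ R J a₀ b₀ a b η (ρ / 2) hδ ha hb hη (by linarith)
  refine ⟨max K₁ (K₂ + 1), lt_of_lt_of_le hK₁ (le_max_left _ _), fun x y hx hy => ?_⟩
  have hx₁ : K₁ * x ≤ y := le_trans (Nat.mul_le_mul_right _ (le_max_left _ _)) hy
  have hx₂ : K₂ * x ≤ y := le_trans (Nat.mul_le_mul_right _
    (le_trans (Nat.le_succ _) (le_max_right _ _))) hy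
  have e₁ := h₁ x y hx hx₁
  have e₂ := h₂ x y hx hx₂
  have hsub : (Finset.Icc x y).filter (fun N : ℕ =>
        ¬ Str (Pair β δ ∨ NoObs β δ (max K₁ (K₂ + 1)) N) β δ a₀ b₀ a b η (max K₁ (K₂ + 1)) N) ⊆
      (Finset.Icc x y).filter (fun N : ℕ => ¬ Str (Pair β δ) β δ a₀ b₀ a b η K₁ N) ∪
      (Finset.Icc x y).filter (fun N : ℕ => (Pair β δ ∨ NoObs β δ K₂ N) ∧
        BadG β δ a₀ b₀ a b η N) := by
    intro N hN
    rw [Finset.mem_filter] at hN
    rw [Finset.mem_union, Finset.mem_filter, Finset.mem_filter]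
    by_contra hcon
    rw [not_or] at hcon
    obtain ⟨c1, c2⟩ := hcon
    have c1' : Str (Pair β δ) β δ a₀ b₀ a b η K₁ N := by
      by_contra hne
      exact c1 ⟨hN.1, hne⟩
    apply hN.2
    by_cases hP : Pair β δ ∨ NoObs β δ (max K₁ (K₂ + 1)) N
    · have hP' : Pair β δ ∨ NoObs β δ K₂ N := by
        rcases hP with hP | hP
        · exact Or.inl hP
        · rcases Nat.eq_zero_or_pos K₂ with h0 | h0
          · right
            intro q n₀ M hq1 hq2
            omega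
          · exact Or.inr (noObs_mono h0 (le_trans (Nat.le_succ _) (le_max_right _ _)) hP)
      have hnb : ¬ BadG β δ a₀ b₀ a b η N := fun hb' => c2 ⟨hN.1, hP', hb'⟩
      refine ⟨1, 1, fun _ _ => 0, le_refl _, ?_, le_refl _, ?_, ?_, fun _ _ _ => rfl, ?_⟩
      · exact le_trans (Nat.succ_le_succ (Nat.zero_le _)) (le_max_right _ _)
      · exact le_trans (Nat.succ_le_succ (Nat.zero_le _)) (le_max_right _ _)
      · intro s j
        norm_num
      · intro F hF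
        by_contra hlt
        rw [not_le] at hlt
        refine hnb ⟨F, hF, ?_⟩
        refine lt_of_lt_of_eq hlt ?_
        simp only [st, sub_zero]
    · obtain ⟨q, L, φ, q1, q2, L1, L2, hφ, _, hF⟩ := c1'
      exact ⟨q, L, φ, q1, le_trans q2 (le_max_left _ _), L1, le_trans L2 (le_max_left _ _), hφ,
        fun h => absurd h hP, hF⟩
  calc ∑ N ∈ (Finset.Icc x y).filter (fun N : ℕ =>
        ¬ Str (Pair β δ ∨ NoObs β δ (max K₁ (K₂ + 1)) N) β δ a₀ b₀ a b η (max K₁ (K₂ + 1)) N),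
        (1 / (N : ℝ))
      ≤ ∑ N ∈ (Finset.Icc x y).filter (fun N : ℕ => ¬ Str (Pair β δ) β δ a₀ b₀ a b η K₁ N) ∪
      (Finset.Icc x y).filter (fun N : ℕ => (Pair β δ ∨ NoObs β δ K₂ N) ∧
        BadG β δ a₀ b₀ a b η N), (1 / (N : ℝ)) :=
        Finset.sum_le_sum_of_subset_of_nonneg hsub fun i _ _ => by positivity
    _ ≤ ∑ N ∈ (Finset.Icc x y).filter (fun N : ℕ => ¬ Str (Pair β δ) β δ a₀ b₀ a b η K₁ N),
          (1 / (N : ℝ)) + ∑ N ∈ (Finset.Icc x y).filter (fun N : ℕ =>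
            (Pair β δ ∨ NoObs β δ K₂ N) ∧ BadG β δ a₀ b₀ a b η N), (1 / (N : ℝ)) := by
        rw [← Finset.sum_union_inter]
        exact le_add_of_nonneg_right (Finset.sum_nonneg fun i _ => by positivity)
    _ ≤ ρ / 2 * Real.log ((y : ℝ) / x) + ρ / 2 * Real.log ((y : ℝ) / x) := add_le_add e₁ e₂
    _ = ρ * Real.log ((y : ℝ) / x) := by ring

end Pool.Agent.H28.GS
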