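import Pool.Agent.H31.GSA.All
import Pool.Agent.H28.GS.Fin

/-!
# The structure theorem for the correlations of every order: assembly (MP_c59857_nt)
-/

set_option autoImplicit false

namespace Pool.Agent.H28.GS.All

theorem s_FIN : Pool.Agent.H28.GS.T_FIN :=
  Pool.Agent.H28.GS.pf_FIN Pool.Agent.H31.GSA.All.s_FNS Pool.Agent.H31.GUF.All.g_FNG

end Pool.Agent.H28.GS.All
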