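import Pool.Agent.H28.GUG.Targets
import Pool.Agent.H66.GUA.Targets2

/-!
Definitions for the project GS (structure theorem for the correlations of every order) on
`MP_c59857_nt`.
-/

set_option autoImplicit false

open Finset Filter Topology

namespace Pool.Agent.H28.GS

open Pool.Agent.H91.LF (lz Bdd Mean sqw par)
open Pool.Agent.H24.T2 (Pset box cub)
open Pool.Agent.H31.DP
open Pool.Agent.H31.DPD (sI IC mulc Oc)
open Pool.Agent.H31.GUF
open Pool.Agent.H28.GU (Gw hat Dl aff)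
open Pool.Agent.H28.GUG (cut)

/-! ## Functions which depend on a residue class and on a block -/

/-- The function of `n` which depends only on `n mod W` and on the block `⌊J n / N⌋`. -/
noncomputable def st (W J N : ℕ) (φ : ℤ → ℤ → ℝ) (n : ℤ) : ℝ := φ (n % W) (J * n / N)

/-- The cell of `n`: the `m ∈ [1, N]` in the class of `n` modulo `W` and in the block of `n`. -/
noncomputable def cell (W J N : ℕ) (n : ℤ) : Finset ℤ :=
  (Finset.Icc (1 : ℤ) N).filter (fun m => m % (W : ℤ) = n % (W : ℤ) ∧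
    (J : ℤ) * m / (N : ℤ) = (J : ℤ) * n / (N : ℤ))

/-- The conditional expectation of `f` on `[1, N]`, given the class modulo `W` and the block. -/
noncomputable def ce (W J N : ℕ) (f : ℤ → ℝ) (n : ℤ) : ℝ :=
  (∑ m ∈ cell W J N n, f m) / ((cell W J N n).card : ℝ)

/-- The values of `φ` are multiples of `1 / L` in `[-1, 1]`. -/
def NetF (L : ℕ) (φ : ℤ → ℤ → ℝ) : Prop :=
  ∀ r j, ∃ k : ℤ, |k| ≤ (L : ℤ) ∧ φ r j = (k : ℝ) / L

/-- Half of the difference of the correlation of the Liouville function and of `E`. -/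
noncomputable def gs {l : ℕ} (h : Fin l → ℕ) (E : ℤ → ℝ) (n : ℤ) : ℝ := (FF h 1 n - E n) / 2

/-- The same for the dilated shifts. -/
noncomputable def Hs {l : ℕ} (h : Fin l → ℕ) (Ψ : ℤ → ℝ) (p : ℕ) (y : ℤ) : ℝ :=
  (FF h p y - Ψ y) / 2

/-! ## Cubes -/

/-- The product of `H` over the vertices of the cube. -/
noncomputable def GCH {d : ℕ} (H : ℤ → ℝ) (s : Fin d → ℤ) (y : ℤ) : ℝ :=
  ∏ I : Finset (Fin d), H (y + sI s I)

/-- The balanced correlation over the cubes with sides `s`. -/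
noncomputable def TTH {d : ℕ} (H : ℤ → ℝ) (p M : ℕ) (s : Fin d → ℤ) : ℝ :=
  ∑ y ∈ IC M s, bal p y * GCH H s y

/-- The decoupling defect at the scale `M` (not normalised; of size at most `M ^ (d + 2)`). -/
noncomputable def DDH (d : ℕ) (H : ℤ → ℝ) (p M : ℕ) : ℝ :=
  (p : ℝ) ^ d * ∑ s ∈ mulc d p M, (TTH H p M s) ^ 2

/-! ## The final statement -/

open Classical in
/-- At the scale `N` the product of the problem, along the form `a₀ n + b₀ . t`, minus a function
which depends only on the class modulo `q ≤ K` and on the block of length `N / L`, `L ≤ K`, does not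
correlate with bounded functions along the other forms, for most `t`; this function is `0` if `P`
holds. -/
def Str (P : Prop) {r R J : ℕ} (β : Fin r → ℤ) (δ : Fin r → ℕ) (a₀ : ℤ) (b₀ : Fin R → ℤ)
    (a : Fin J → ℤ) (b : Fin J → Fin R → ℤ) (η : ℝ) (K N : ℕ) : Prop :=
  ∃ (q L : ℕ) (φ : ℤ → ℤ → ℝ), 1 ≤ q ∧ q ≤ K ∧ 1 ≤ L ∧ L ≤ K ∧ (∀ s j, |φ s j| ≤ 1) ∧
    (P → ∀ s j, φ s j = 0) ∧ ∀ F : Fin J → ℤ → ℂ, (∀ j m, ‖F j m‖ ≤ 1) →
      (((box R N).filter (fun t => η * N <
        ‖∑ n ∈ Finset.Icc (1 : ℤ) N, ((fz β δ (a₀ * n + dot b₀ t) -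
          st q L N φ (a₀ * n + dot b₀ t) : ℝ) : ℂ) * ∏ j, F j (a j * n + dot (b j) t)‖)).card : ℝ) ≤
        η * (N : ℝ) ^ R

end Pool.Agent.H28.GS
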