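import Pool.Agent.H28.GS.Targets

/-!
Row EN of the project GS: conditional expectations.
-/

set_option autoImplicit false

open Finset

namespace Pool.Agent.H28.GS

theorem mem_cell {W J N : ℕ} {n m : ℤ} : m ∈ cell W J N n ↔
    (1 ≤ m ∧ m ≤ N) ∧ m % (W : ℤ) = n % (W : ℤ) ∧
      (J : ℤ) * m / (N : ℤ) = (J : ℤ) * n / (N : ℤ) := by
  simp [cell]

theorem cell_congr {W J N : ℕ} {n m : ℤ} (h : m ∈ cell W J N n) :
    cell W J N m = cell W J N n := by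
  rw [mem_cell] at h
  ext k
  rw [mem_cell, mem_cell, h.2.1, h.2.2]

theorem ce_congr {W J N : ℕ} {n m : ℤ} (f : ℤ → ℝ) (h : m ∈ cell W J N n) :
    ce W J N f m = ce W J N f n := by
  unfold ce
  rw [cell_congr h]

theorem self_mem_cell {W J N : ℕ} {n : ℤ} (h : n ∈ Finset.Icc (1 : ℤ) N) : n ∈ cell W J N n := by
  rw [mem_cell]
  exact ⟨Finset.mem_Icc.1 h, rfl, rfl⟩

theorem cell_symm {W J N : ℕ} {n m : ℤ} (hn : n ∈ Finset.Icc (1 : ℤ) N)
    (h : m ∈ cell W J N n) : n ∈ cell W J N m := by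
  rw [mem_cell] at h ⊢
  exact ⟨Finset.mem_Icc.1 hn, h.2.1.symm, h.2.2.symm⟩

theorem cell_sub {W J N : ℕ} {n m : ℤ} (h : m ∈ cell W J N n) : m ∈ Finset.Icc (1 : ℤ) N := by
  rw [mem_cell] at h
  exact Finset.mem_Icc.2 h.1

theorem avg_abs_le (S : Finset ℤ) (f : ℤ → ℝ) (hf : ∀ n, |f n| ≤ 1) :
    |(∑ m ∈ S, f m) / (S.card : ℝ)| ≤ 1 := by
  rw [abs_div, abs_of_nonneg (Nat.cast_nonneg S.card : (0 : ℝ) ≤ S.card)]
  refine div_le_one_of_le₀ ?_ (Nat.cast_nonneg _)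
  calc |∑ m ∈ S, f m| ≤ ∑ m ∈ S, |f m| := Finset.abs_sum_le_sum_abs _ _
    _ ≤ ∑ _m ∈ S, (1 : ℝ) := Finset.sum_le_sum fun m _ => hf m
    _ = S.card := by simp

theorem cell_mono {W W' J J' N : ℕ} (hW : W ∣ W') (hJ : J ∣ J') (hJ' : 0 < J') {n m : ℤ}
    (h : m ∈ cell W' J' N n) : m ∈ cell W J N n := by
  rw [mem_cell] at h ⊢
  obtain ⟨h1, h2, h3⟩ := h
  refine ⟨h1, ?_, ?_⟩
  · have hd : (W : ℤ) ∣ (W' : ℤ) := Int.natCast_dvd_natCast.2 hW
    rw [← Int.emod_emod_of_dvd m hd, h2, Int.emod_emod_of_dvd n hd]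
  · obtain ⟨e, rfl⟩ := hJ
    have he : (0 : ℤ) < e := by
      have : 0 < e := Nat.pos_of_mul_pos_left hJ'
      exact_mod_cast this
    have key : ∀ k : ℤ, (J : ℤ) * k / (N : ℤ) = ((J * e : ℕ) : ℤ) * k / (N : ℤ) / e := by
      intro k
      rw [Int.ediv_ediv_of_nonneg (Int.natCast_nonneg N)]
      rw [show ((J * e : ℕ) : ℤ) * k = (e : ℤ) * ((J : ℤ) * k) by push_cast; ring,
        mul_comm (N : ℤ) (e : ℤ), Int.mul_ediv_mul_of_pos _ _ he]
    rw [key m, key n, h3]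

theorem sum_ce_mul {W J N : ℕ} (f g : ℤ → ℝ)
    (hg : ∀ n ∈ Finset.Icc (1 : ℤ) N, ∀ m ∈ cell W J N n, g m = g n) :
    ∑ n ∈ Finset.Icc (1 : ℤ) N, ce W J N f n * g n = ∑ n ∈ Finset.Icc (1 : ℤ) N, f n * g n := by
  have h1 : ∀ n ∈ Finset.Icc (1 : ℤ) N, ce W J N f n * g n =
      ∑ m ∈ cell W J N n, f m * g m / ((cell W J N m).card : ℝ) := by
    intro n hn
    have : ∀ m ∈ cell W J N n, f m * g m / ((cell W J N m).card : ℝ) =
        f m * (g n / ((cell W J N n).card : ℝ)) := by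
      intro m hm
      rw [cell_congr hm, hg n hn m hm, mul_div_assoc]
    rw [Finset.sum_congr rfl this, ← Finset.sum_mul, ce]
    ring
  rw [Finset.sum_congr rfl h1]
  rw [Finset.sum_comm' (s' := fun m => cell W J N m) (t' := Finset.Icc (1 : ℤ) N)]
  · refine Finset.sum_congr rfl fun m hm => ?_
    rw [Finset.sum_const, nsmul_eq_mul]
    have : ((cell W J N m).card : ℝ) ≠ 0 := by
      have := Finset.card_pos.2 ⟨m, self_mem_cell (W := W) (J := J) hm⟩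
      exact_mod_cast this.ne'
    field_simp
  · intro n m
    constructor
    · rintro ⟨hn, hm⟩
      exact ⟨cell_symm hn hm, cell_sub hm⟩
    · rintro ⟨hn, hm⟩
      exact ⟨cell_sub hn, cell_symm hm hn⟩

theorem pf_EN : T_EN := by
  intro W J N f _ _ _ hf
  refine ⟨fun n => avg_abs_le _ f hf, ?_, ?_, ?_⟩
  · refine ⟨fun s j => (∑ m ∈ (Finset.Icc (1 : ℤ) N).filter (fun m => m % (W : ℤ) = s ∧
      (J : ℤ) * m / (N : ℤ) = j), f m) / (((Finset.Icc (1 : ℤ) N).filter (fun m =>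
        m % (W : ℤ) = s ∧ (J : ℤ) * m / (N : ℤ) = j)).card : ℝ), fun s j => avg_abs_le _ f hf,
      fun n => rfl⟩
  · intro n
    have h1 : ∀ m ∈ cell W J N n, f m - ce W J N f m = f m - ce W J N f n := by
      intro m hm
      rw [ce_congr f hm]
    rw [Finset.sum_congr rfl h1, Finset.sum_sub_distrib, Finset.sum_const, nsmul_eq_mul, ce]
    by_cases hc : ((cell W J N n).card : ℝ) = 0
    · have : cell W J N n = ∅ := Finset.card_eq_zero.1 (by exact_mod_cast hc)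
      rw [this]
      simp
    · field_simp
      ring
  · intro W' J' _ hJ' hW hJ
    have e1 : ∑ n ∈ Finset.Icc (1 : ℤ) N, ce W' J' N f n * ce W J N f n =
        ∑ n ∈ Finset.Icc (1 : ℤ) N, f n * ce W J N f n :=
      sum_ce_mul f (ce W J N f) fun n _ m hm => ce_congr f (cell_mono hW hJ hJ' hm)
    have e2 : ∑ n ∈ Finset.Icc (1 : ℤ) N, ce W J N f n * ce W J N f n =
        ∑ n ∈ Finset.Icc (1 : ℤ) N, f n * ce W J N f n :=
      sum_ce_mul f (ce W J N f) fun n _ m hm => ce_congr f hm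
    have e3 : ∑ n ∈ Finset.Icc (1 : ℤ) N, (ce W' J' N f n - ce W J N f n) ^ 2 =
        ∑ n ∈ Finset.Icc (1 : ℤ) N, (ce W' J' N f n) ^ 2 -
          2 * ∑ n ∈ Finset.Icc (1 : ℤ) N, ce W' J' N f n * ce W J N f n +
          ∑ n ∈ Finset.Icc (1 : ℤ) N, (ce W J N f n) ^ 2 := by
      rw [Finset.mul_sum, ← Finset.sum_sub_distrib, ← Finset.sum_add_distrib]
      exact Finset.sum_congr rfl fun n _ => by ring
    have e4 : ∑ n ∈ Finset.Icc (1 : ℤ) N, (ce W J N f n) ^ 2 =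
        ∑ n ∈ Finset.Icc (1 : ℤ) N, ce W J N f n * ce W J N f n :=
      Finset.sum_congr rfl fun n _ => by ring
    rw [e3, e1, ← e2, ← e4]
    ring

end Pool.Agent.H28.GS
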