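import Pool.Agent.H28.GS.Defs

/-!
Main statements of the project GS (structure theorem for the correlations of every order) on
`MP_c59857_nt`.
-/

set_option autoImplicit false

open Finset Filter Topology

namespace Pool.Agent.H28.GS

open Pool.Agent.H91.LF (lz Bdd Mean sqw par)
open Pool.Agent.H24.T2 (Pset box cub)
open Pool.Agent.H31.DP
open Pool.Agent.H31.DPD (sI IC mulc Oc)
open Pool.Agent.H31.GUF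
open Pool.Agent.H28.GU (Gw hat Dl aff)
open Pool.Agent.H28.GUG (cut)

/-! ## The inductive step -/

open Classical in
/-- [MKS] Most scales have a small defect, for all the functions of a finite net. -/
def T_MKS : Prop :=
  ∃ c₀ : ℝ, 0 < c₀ ∧ ∀ (d l : ℕ) (h : Fin l → ℕ) (W J L : ℕ) (θ ρ : ℝ) (m₀ : ℕ), 0 < W → 0 < J →
    0 < L → 0 < θ → 0 < ρ → ∃ m₁ K : ℕ, ∀ x y : ℕ, 0 < x → K * x ≤ y →
      ∃ m, m₀ ≤ m ∧ m ≤ m₁ ∧ c₀ * 2 ^ m / m ≤ ((Pset 1 m).card : ℝ) ∧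
        ∑ M ∈ (Finset.Icc x y).filter (fun M : ℕ => ∃ φ : ℤ → ℤ → ℝ, NetF L φ ∧
          θ * (Pset 1 m).card * (M : ℝ) ^ (d + 2) <
            ∑ p ∈ Pset 1 m, DDH d (Hs h (st W J M φ) p) p M),
          (1 / (M : ℝ)) ≤ ρ * Real.log ((y : ℝ) / x)

/-- [GAS] The arithmetic half of the inductive step. -/
def T_GAS : Prop :=
  ∀ (d l : ℕ) (δ : ℝ), 0 < δ → ∃ τ : ℝ, 0 < τ ∧ ∃ κ : ℝ, 0 < κ ∧
    ∀ (h : Fin l → ℕ) (α : ℝ), 0 < α → ∃ θ : ℝ, 0 < θ ∧ ∃ m₀ : ℕ,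
      ∀ (m : ℕ) (A : Finset ℕ) (P : ℕ), m₀ ≤ m → A ⊆ Pset 1 m → α * 2 ^ m / m ≤ (A.card : ℝ) →
        2 ^ m ≤ P → P ≤ 2 ^ (m + 1) → (∀ p ∈ A, P < p ∧ (p : ℝ) ≤ P + κ * 2 ^ m) →
      ∃ (K B k : ℕ) (f : ℝ), 0 < f ∧ ∀ (M N q : ℕ) [Fact q.Prime], K ≤ N → M / P = N →
        5 * N ≤ q → q ≤ 10 * N + 10 →
        ∀ (Ψ E : ℤ → ℝ), (∀ y, |Ψ y| ≤ 1) → (∀ n, |E n| ≤ 1) →
          ∑ p ∈ A, DDH (d + 1) (Hs h Ψ p) p M ≤ θ * A.card * (M : ℝ) ^ (d + 3) →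
          (∀ p ∈ A, ∑ n ∈ Finset.Icc (1 : ℤ) ((M / p : ℕ) : ℤ),
            |E n - (-1) ^ l * Ψ ((p : ℤ) * n)| ≤ τ * N) →
          ∀ (σ : (Fin d → ZMod q) → ZMod q)
            (R : Finset ((Fin d → ZMod q) × (Fin d → ZMod q))),
            δ * (q : ℝ) ^ (2 * d) ≤ (R.card : ℝ) →
            (∀ z ∈ R, δ * q ≤ ‖hat (Dl d z.1 (cut q N (gs h E))) (σ z.1)‖) →
            ∃ (W : Type) (_ : Fintype W) (a : W → ZMod q) (p : W → ℕ) (χ : W → ZMod q)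
              (Q r : ZMod q) (c : Fin d → ZMod q)
              (F : Finset ((Fin d → ZMod q) × (Fin d → ZMod q))),
              Fintype.card W ≤ k ∧ Q ≠ 0 ∧ (∀ w, 1 ≤ p w ∧ p w ≤ B) ∧
              (∀ w, a w * (p w : ZMod q) = Q) ∧ f * (q : ℝ) ^ (2 * d) ≤ (F.card : ℝ) ∧
              (∀ z ∈ F, ∀ w, (aff c (a w) z.1, z.2) ∈ R) ∧
              (∀ z ∈ F, ∑ w, χ w * σ (aff c (a w) z.1) = r) ∧ ∑ w, χ w * a w ^ d ≠ 0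

open Classical in
/-- [SPS] The inductive step, on the cyclic group. -/
def T_SPS : Prop :=
  ∀ (d l : ℕ) (δ : ℝ), 1 ≤ d → 0 < δ → ∃ τ : ℝ, 0 < τ ∧
    ∀ (h : Fin l → ℕ) (W J : ℕ) (ρ : ℝ), 0 < W → 0 < J → 0 < ρ →
    ∃ δ' : ℝ, 0 < δ' ∧ ∃ K : ℕ, ∀ x y : ℕ, 0 < x → K * x ≤ y →
      ∑ N ∈ (Finset.Icc x y).filter (fun N : ℕ => ∃ (E : ℤ → ℝ) (φ : ℤ → ℤ → ℝ) (q : ℕ)
        (_ : NeZero q), (∀ n, |E n| ≤ 1) ∧ (∀ s j, |φ s j| ≤ 1) ∧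
        ∑ n ∈ Finset.Icc (1 : ℤ) N, |E n - st W J N φ n| ≤ τ * N ∧ q.Prime ∧ 5 * N ≤ q ∧
        q ≤ 10 * N + 10 ∧ δ * (q : ℝ) ^ (d + 3) ≤ Gw (d + 2) (cut q N (gs h E)) ∧
        Gw (d + 1) (cut q N (gs h E)) < δ' * (q : ℝ) ^ (d + 2)),
        (1 / (N : ℝ)) ≤ ρ * Real.log ((y : ℝ) / x)

open Classical in
/-- [STS] The inductive step, on the integers. -/
def T_STS : Prop :=
  ∀ (d l : ℕ) (δ : ℝ), 1 ≤ d → 0 < δ → ∃ τ : ℝ, 0 < τ ∧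
    ∀ (h : Fin l → ℕ) (W J : ℕ) (ρ : ℝ), 0 < W → 0 < J → 0 < ρ →
    ∃ δ' : ℝ, 0 < δ' ∧ ∃ K : ℕ, ∀ x y : ℕ, 0 < x → K * x ≤ y →
      ∑ N ∈ (Finset.Icc x y).filter (fun N : ℕ => ∃ (E : ℤ → ℝ) (φ : ℤ → ℤ → ℝ),
        (∀ n, |E n| ≤ 1) ∧ (∀ s j, |φ s j| ≤ 1) ∧
        ∑ n ∈ Finset.Icc (1 : ℤ) N, |E n - st W J N φ n| ≤ τ * N ∧
        δ ≤ UU (d + 2) N (fun n => ((gs h E n : ℝ) : ℂ)) ∧
        UU (d + 1) N (fun n => ((gs h E n : ℝ) : ℂ)) < δ'),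
        (1 / (N : ℝ)) ≤ ρ * Real.log ((y : ℝ) / x)

/-! ## Conditional expectations -/

/-- [EN] The conditional expectations. -/
def T_EN : Prop :=
  ∀ (W J N : ℕ) (f : ℤ → ℝ), 0 < W → 0 < J → 0 < N → (∀ n, |f n| ≤ 1) →
    (∀ n, |ce W J N f n| ≤ 1) ∧
    (∃ φ : ℤ → ℤ → ℝ, (∀ s j, |φ s j| ≤ 1) ∧ ∀ n, ce W J N f n = st W J N φ n) ∧
    (∀ n, ∑ m ∈ cell W J N n, (f m - ce W J N f m) = 0) ∧
    ∀ W' J' : ℕ, 0 < W' → 0 < J' → W ∣ W' → J ∣ J' →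
      ∑ n ∈ Finset.Icc (1 : ℤ) N, (ce W' J' N f n - ce W J N f n) ^ 2 =
        ∑ n ∈ Finset.Icc (1 : ℤ) N, (ce W' J' N f n) ^ 2 -
          ∑ n ∈ Finset.Icc (1 : ℤ) N, (ce W J N f n) ^ 2

/-! ## The base -/

/-- [B2S] The uniformity norm of order two and the Fourier coefficients. -/
def T_B2S : Prop :=
  ∀ (g : ℤ → ℝ) (N : ℕ) (E : ℝ), (∀ n, |g n| ≤ 1) →
    (∀ θ : ℝ, ‖∑ n ∈ Finset.Icc (1 : ℤ) N, ((g n : ℝ) : ℂ) * ee (n * θ)‖ ≤ E) →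
    (Uc N 2 (Finset.Icc (1 : ℤ) N) (fun n => ((g n : ℝ) : ℂ))).re ≤ N * E ^ 2

/-- [MAS] Near a rational with denominator dividing `W` a function with vanishing sums over the
cells has small twisted sums. -/
def T_MAS : Prop :=
  ∀ (W J N : ℕ) (B : ℝ) (g : ℤ → ℝ) (θ : ℝ) (a : ℤ), 0 < W → 0 < J → 0 < N → 0 ≤ B →
    (∀ n, |g n| ≤ 1) → (∀ n, ∑ m ∈ cell W J N n, g m = 0) →
    |(W : ℝ) * θ - a| ≤ B * W / N →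
    ‖∑ n ∈ Finset.Icc (1 : ℤ) N, ((g n : ℝ) : ℂ) * ee (n * θ)‖ ≤
      2 * Real.pi * B * (1 / (J : ℝ) + 1 / N) * N

/-- [MIS] Far from the rationals with denominator dividing `W` a function which is constant on the
cells has small twisted sums. -/
def T_MIS : Prop :=
  ∀ (W J N : ℕ) (B : ℝ) (φ : ℤ → ℤ → ℝ) (θ : ℝ), 0 < W → 0 < J → 0 < N → 0 < B →
    (∀ s j, |φ s j| ≤ 1) → (∀ a : ℤ, B * W / N ≤ |(W : ℝ) * θ - a|) →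
    ‖∑ n ∈ Finset.Icc (1 : ℤ) N, ((st W J N φ n : ℝ) : ℂ) * ee (n * θ)‖ ≤
      (J + 1) / (2 * B) * N

open Classical in
/-- [S2S] The structure theorem for the norm of order two. -/
def T_S2S : Prop :=
  ∀ (l : ℕ) (h : Fin l → ℕ) (η ρ : ℝ) (W J : ℕ), 0 < η → 0 < ρ → 0 < W → 0 < J →
    ∃ W' J' K : ℕ, 0 < W' ∧ 0 < J' ∧ W ∣ W' ∧ J ∣ J' ∧ ∀ x y : ℕ, 0 < x → K * x ≤ y →
      ∑ N ∈ (Finset.Icc x y).filter (fun N : ℕ => ¬ ∃ W₁ J₁ : ℕ, W ∣ W₁ ∧ W₁ ∣ W' ∧ J ∣ J₁ ∧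
        J₁ ∣ J' ∧ UU 2 N (fun n => ((gs h (ce W₁ J₁ N (FF h 1)) n : ℝ) : ℂ)) ≤ η),
        (1 / (N : ℝ)) ≤ ρ * Real.log ((y : ℝ) / x)

open Classical in
/-- [SKS] The structure theorem for the norms of every order. -/
def T_SKS : Prop :=
  ∀ (k l : ℕ) (h : Fin l → ℕ) (η ρ : ℝ) (W J : ℕ), 2 ≤ k → 0 < η → 0 < ρ → 0 < W → 0 < J →
    ∃ W' J' K : ℕ, 0 < W' ∧ 0 < J' ∧ W ∣ W' ∧ J ∣ J' ∧ ∀ x y : ℕ, 0 < x → K * x ≤ y →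
      ∑ N ∈ (Finset.Icc x y).filter (fun N : ℕ => ¬ ∃ W₁ J₁ : ℕ, W ∣ W₁ ∧ W₁ ∣ W' ∧ J ∣ J₁ ∧
        J₁ ∣ J' ∧ UU k N (fun n => ((gs h (ce W₁ J₁ N (FF h 1)) n : ℝ) : ℂ)) ≤ η),
        (1 / (N : ℝ)) ≤ ρ * Real.log ((y : ℝ) / x)

/-! ## The final theorem -/

open Classical in
/-- [F0S] The structure theorem for natural shifts. -/
def T_F0S : Prop :=
  ∀ (r : ℕ) (h : Fin r → ℕ) (δ : Fin r → ℕ) (R J : ℕ) (a₀ : ℤ) (b₀ : Fin R → ℤ) (a : Fin J → ℤ)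
    (b : Fin J → Fin R → ℤ) (η ρ : ℝ), (∀ i, 1 ≤ δ i) → a₀ ≠ 0 →
    (∀ j, ∃ i, a₀ * b j i ≠ a j * b₀ i) → 0 < η → 0 < ρ →
    ∃ K : ℕ, 0 < K ∧ ∀ x y : ℕ, 0 < x → K * x ≤ y →
      ∑ N ∈ (Finset.Icc x y).filter (fun N : ℕ =>
        ¬ Str False (fun i => (h i : ℤ)) δ a₀ b₀ a b η K N), (1 / (N : ℝ)) ≤
          ρ * Real.log ((y : ℝ) / x)

open Classical in
/-- [FNS] The structure theorem. -/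
def T_FNS : Prop :=
  ∀ (r : ℕ) (β : Fin r → ℤ) (δ : Fin r → ℕ) (R J : ℕ) (a₀ : ℤ) (b₀ : Fin R → ℤ) (a : Fin J → ℤ)
    (b : Fin J → Fin R → ℤ) (η ρ : ℝ), (∀ i, 1 ≤ δ i) → a₀ ≠ 0 →
    (∀ j, ∃ i, a₀ * b j i ≠ a j * b₀ i) → 0 < η → 0 < ρ →
    ∃ K : ℕ, 0 < K ∧ ∀ x y : ℕ, 0 < x → K * x ≤ y →
      ∑ N ∈ (Finset.Icc x y).filter (fun N : ℕ => ¬ Str (Pair β δ) β δ a₀ b₀ a b η K N),
        (1 / (N : ℝ)) ≤ ρ * Real.log ((y : ℝ) / x)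

end Pool.Agent.H28.GS
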